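import Pool.Agent.Work.MP_794bd6_an.Special
import Pool.Agent.Work.MP_794bd6_an.Ent

set_option autoImplicit false
open MeasureTheory Filter Topology Manifold Bundle
open scoped ContDiff ENNReal
open Pool.Agent.Work.MP_794bd6_an

namespace Pool.Agent.Results.MP_794bd6_an.NoEquality

lemma special_closed : IsClosed {x : Circle × Circle | Special x} := by
  have h1 : Continuous (fun x : Circle × Circle => (x.1 : ℂ).im) :=
    continuous_coe_im.comp continuous_fst
  have h2 : Continuous (fun x : Circle × Circle => (x.2 : ℂ).im) :=
    continuous_coe_im.comp continuous_snd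
  have h3 : Continuous (fun x : Circle × Circle => (x.1 : ℂ).re) :=
    continuous_coe_re.comp continuous_fst
  have h4 : Continuous (fun x : Circle × Circle => (x.2 : ℂ).re) :=
    continuous_coe_re.comp continuous_snd
  exact ((isClosed_eq h1 continuous_const).inter (isClosed_eq h2 continuous_const)).union
    ((isClosed_eq h3 continuous_const).inter (isClosed_eq h4 continuous_const))

lemma circle_finite_im : {z : Circle | (z : ℂ).im = 0}.Finite := by
  apply Set.Finite.subset (Set.toFinite {(1 : Circle), -1})
  intro z hz
  have h1 := circle_sq z
  have hz' : (z : ℂ).im = 0 := hz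
  rw [hz'] at h1
  have h2 : (z : ℂ).re = 1 ∨ (z : ℂ).re = -1 := by
    apply sq_eq_sq_iff_eq_or_eq_neg.mp
    linarith
  rcases h2 with h | h
  · left
    apply Circle.ext
    apply Complex.ext <;> simp [h, hz']
  · right
    apply Circle.ext
    apply Complex.ext <;> simp [h, hz']

lemma circle_finite_re : {z : Circle | (z : ℂ).re = 0}.Finite := by
  have hinj : Function.Injective (fun z : Circle => (z : ℂ)) := fun a b h => Circle.ext h
  have : {z : Circle | (z : ℂ).re = 0} ⊆ (fun z : Circle => (z : ℂ)) ⁻¹' {Complex.I, -Complex.I} := by
    intro z hz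
    have h1 := circle_sq z
    have hz' : (z : ℂ).re = 0 := hz
    rw [hz'] at h1
    have h2 : (z : ℂ).im = 1 ∨ (z : ℂ).im = -1 := by
      apply sq_eq_sq_iff_eq_or_eq_neg.mp
      linarith
    rcases h2 with h | h
    · left
      apply Complex.ext <;> simp [h, hz']
    · right
      apply Complex.ext <;> simp [h, hz']
  exact Set.Finite.subset ((Set.toFinite _).preimage hinj.injOn) this

lemma special_finite : {x : Circle × Circle | Special x}.Finite := by
  have : {x : Circle × Circle | Special x} ⊆
      ({z : Circle | (z : ℂ).im = 0} ×ˢ {z : Circle | (z : ℂ).im = 0}) ∪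
      ({z : Circle | (z : ℂ).re = 0} ×ˢ {z : Circle | (z : ℂ).re = 0}) := by
    rintro x (h | h)
    · left; exact h
    · right; exact h
  exact ((circle_finite_im.prod circle_finite_im).union
    (circle_finite_re.prod circle_finite_re)).subset this

/-- The torus statement: there is a real-analytic diffeomorphism `f` of the 2-torus such that every
`f`-invariant Borel probability measure has entropy strictly less than the integral of the sum of
the positive characteristic exponents. -/
theorem torus :
    ∃ f : Diffeomorph ((𝓡 1).prod (𝓡 1)) ((𝓡 1).prod (𝓡 1)) (Circle × Circle) (Circle × Circle) ω,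
      EntropyBelowExponents f := by
  refine ⟨FF, fun g _ _ ρ hρ hf => ?_⟩
  have hcons := hf.conservative
  have hrec := hcons.ae_frequently_mem_of_mem_nhds
  have hsp : ∀ᵐ x ∂ρ, Special x := by
    filter_upwards [hrec] with x hx
    exact special_of_rec x hx
  refine ⟨?_, fun χp hχ => ?_⟩
  · filter_upwards [hsp] with x hx
    exact (special_all x hx g).1
  · have hpos : ∀ᵐ x ∂ρ, 0 < χp x := by
      filter_upwards [hsp, hχ] with x hx hx2
      exact (special_all x hx g).2 _ hx2
    have hint : Integrable χp ρ := by
      have h1 : IntegrableOn χp {x : Circle × Circle | Special x} ρ := by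
        rw [← Set.biUnion_of_singleton {x : Circle × Circle | Special x},
          integrableOn_finite_biUnion special_finite]
        intro x _
        rw [integrableOn_singleton_iff]
        right
        exact measure_lt_top ρ {x}
      have h2 : ρ.restrict {x : Circle × Circle | Special x} = ρ :=
        Measure.restrict_eq_self_of_ae_mem hsp
      rwa [IntegrableOn, h2] at h1
    refine ⟨hint, ?_⟩
    have hent : ksEntropy (⇑FF) ρ = 0 := by
      apply ksEntropy_of_fixed
      filter_upwards [hsp] with x hx
      exact FF_special x hx
    rw [hent]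
    rw [ENNReal.ofReal_pos]
    rw [integral_pos_iff_support_of_nonneg_ae (by
      filter_upwards [hpos] with x hx
      exact hx.le) hint]
    rw [pos_iff_ne_zero]
    intro h0
    have h3 : ∀ᵐ x ∂ρ, x ∉ Function.support χp := measure_eq_zero_iff_ae_notMem.mp h0
    obtain ⟨x, hx1, hx2⟩ := (h3.and hpos).exists
    exact hx1 hx2.ne'

/-- There are a closed connected real-analytic surface `M` (the 2-torus) and a real-analytic
diffeomorphism `f` of `M` such that every `f`-invariant Borel probability measure has entropy
strictly less than the integral of the sum of the positive characteristic exponents. -/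
theorem result :
    ∃ (E : Type) (_ : NormedAddCommGroup E) (_ : NormedSpace ℝ E)
      (H : Type) (_ : TopologicalSpace H) (I : ModelWithCorners ℝ E H)
      (M : Type) (_ : TopologicalSpace M) (_ : ChartedSpace H M),
      Module.finrank ℝ E = 2 ∧ I.Boundaryless ∧ IsManifold I ω M ∧ CompactSpace M ∧ T2Space M ∧
      ConnectedSpace M ∧ ∃ f : Diffeomorph I I M M ω, EntropyBelowExponents f := by
  refine ⟨EuclideanSpace ℝ (Fin 1) × EuclideanSpace ℝ (Fin 1), inferInstance, inferInstance,
    ModelProd (EuclideanSpace ℝ (Fin 1)) (EuclideanSpace ℝ (Fin 1)), inferInstance,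
    (𝓡 1).prod (𝓡 1), Circle × Circle, inferInstance, inferInstance, by simp, inferInstance,
    inferInstance, inferInstance, inferInstance, inferInstance, torus⟩

end Pool.Agent.Results.MP_794bd6_an.NoEquality
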